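import Pool.Agent.WAT.Main
import Pool.Agent.WAT.P_E
import Pool.Agent.WAT.P_KEY
import Pool.Agent.WAT.P_FUS
import Pool.Agent.WAT.P_NAM
import Pool.Agent.WAT.P_HYP

/-!
# Specializing generalized Aronszajn trees without adding Cohen reals

Every generalized Aronszajn tree, whatever the size of its levels, can be made special by a
forcing which preserves `ω₁` and adds no Cohen real over the ground model.
-/

set_option autoImplicit false

universe u

namespace Pool.Agent.Results.MP_734594_lc.NoCohenSpecialization

open Pool.Agent.WAT

/-- For every generalized Aronszajn tree `T` there is a forcing `P` which preserves `ω₁`, makes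
`T` special and adds no Cohen real over the ground model; moreover every function from `ω` to the
ground model in the extension is covered by a ground model sequence of finite sets. -/
theorem result (T : Type u) [PartialOrder T] (hT : GenAronszajn T) :
    ∃ (P : Type u) (_ : Preorder P), Nonempty P ∧ PreservesOmega1 P ∧ Specializes P T ∧
      AddsNoCohenReal P ∧ FinitelyCovers P :=
  main p_E (p_FUS (p_KEY p_E)) p_COV p_OM1 p_COH (p_HYP T hT)

end Pool.Agent.Results.MP_734594_lc.NoCohenSpecialization
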